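import Pool.Agent.P.MP_aa4716_al.Diag

set_option autoImplicit false

namespace Pool.Agent.Results.MP_aa4716_al.DimTwo

/-- Outside any countable list of groups there is an infinite two-generated torsion group of
Assouad-Nagata dimension at most two, with one constant for all of them. -/
theorem result :
    ∃ C : ℝ, 0 < C ∧ ∀ (H : ℕ → Type) [∀ i, Group (H i)],
      ∃ (G : Type) (_ : Group G), (∀ i, IsEmpty (G ≃* H i)) ∧ Infinite G ∧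
        (∀ g : G, IsOfFinOrder g) ∧ ∃ (S : Finset G) (len : G → ℕ), S.card ≤ 2 ∧
        (∀ g : G, IsLeast {k : ℕ | ∃ w : List G, (∀ s ∈ w, s ∈ S ∨ s⁻¹ ∈ S) ∧ w.prod = g ∧
          w.length = k} (len g)) ∧
        ∀ r : ℝ, 0 < r → ∃ 𝒰 : Set (Set G),
          (∀ x : G, ∃ A ∈ 𝒰, x ∈ A) ∧
          (∀ A ∈ 𝒰, ∀ x ∈ A, ∀ y ∈ A, (len (x⁻¹ * y) : ℝ) ≤ C * r) ∧
          ∀ x : G, {A ∈ 𝒰 | ∃ y ∈ A, (len (x⁻¹ * y) : ℝ) ≤ r}.encard ≤ 3 := by
  refine ⟨2 * ((TorAN.KK 62000 3 : ℕ) + 1), by positivity, fun H _ => ?_⟩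
  obtain ⟨N, hN⟩ := TorAN.exists_kernels H
  obtain ⟨T, hb, h0, hK⟩ := TorAN.exists_tower3 N
  classical
  refine ⟨_, inferInstance, fun i => ⟨fun e => ?_⟩, T.infinite, T.torsion,
    {T.gen true, T.gen false}, T.M.l, Finset.card_le_two, fun g => ?_, fun r hr => ?_⟩
  · obtain ⟨k, hk⟩ := hN i (e.toMonoidHom.comp (QuotientGroup.mk' T.K))
      (e.surjective.comp (QuotientGroup.mk'_surjective T.K))
    refine hK k (hk.trans ?_).symm
    ext w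
    simp
  · have e : ∀ s, (s ∈ ({T.gen true, T.gen false} : Finset _) ∨
        s⁻¹ ∈ ({T.gen true, T.gen false} : Finset _)) ↔ s = T.gen true ∨ s = T.gen false ∨
        s = (T.gen true)⁻¹ ∨ s = (T.gen false)⁻¹ := fun s => by
      simp only [Finset.mem_insert, Finset.mem_singleton, inv_eq_iff_eq_inv, or_assoc]
    simp only [e]
    exact T.word h0 g
  obtain ⟨U, u1, u2, u3⟩ := (T.col_lim_3 hb ⌊2 * r⌋₊).cover3 T.M.pm
  refine ⟨{A | ∃ i, A ∈ U i}, fun x => ?_, ?_, fun x => ?_⟩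
  · obtain ⟨i, A, a, b⟩ := u1 x
    exact ⟨A, ⟨i, a⟩, b⟩
  · rintro A ⟨i, hA⟩ x hx y hy
    have k1 : ((T.M.l (x⁻¹ * y) : ℕ) : ℝ) ≤ (TorAN.KK 62000 3 : ℕ) * (⌊2 * r⌋₊ : ℝ) := by
      exact_mod_cast u2 i A hA x hx y hy
    have k2 : (⌊2 * r⌋₊ : ℝ) ≤ 2 * r := Nat.floor_le (by positivity)
    have k3 : (0 : ℝ) ≤ (TorAN.KK 62000 3 : ℕ) := Nat.cast_nonneg _
    nlinarith
  · let f : Set _ → Fin 3 := fun A => if h : ∃ i, A ∈ U i then h.choose else 0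
    have hf : ∀ A, (∃ i, A ∈ U i) → A ∈ U (f A) := fun A h => by
      simp only [f, dif_pos h]; exact h.choose_spec
    refine (Set.encard_le_encard_of_injOn (f := f) (t := Set.univ) (fun _ _ => trivial) ?_).trans
      (by simp [Set.encard_univ])
    rintro A ⟨hA, y, y1, y2⟩ B ⟨hB, z, z1, z2⟩ e
    by_contra hne
    have h1 := u3 (f A) A (hf A hA) B (e ▸ hf B hB) hne y y1 z z1
    have h2 := T.M.d_tri y x z
    rw [T.M.d_comm y x] at h2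
    have h3 : ((T.M.d y z : ℕ) : ℝ) ≤ 2 * r := by
      have : ((T.M.d y z : ℕ) : ℝ) ≤ (T.M.l (x⁻¹ * y) : ℕ) + (T.M.l (x⁻¹ * z) : ℕ) := by
        exact_mod_cast h2
      linarith
    exact absurd (Nat.le_floor h3) (not_le.2 h1)

/-- The positive answer to the question with the bound four on the number of sets. -/
theorem ballForm :
    ∃ (G : Type) (_ : Group G), Infinite G ∧ (∀ g : G, IsOfFinOrder g) ∧
      ∃ (S : Finset G) (len : G → ℕ),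
        (∀ g : G, IsLeast {k : ℕ | ∃ w : List G, (∀ s ∈ w, s ∈ S ∨ s⁻¹ ∈ S) ∧ w.prod = g ∧
          w.length = k} (len g)) ∧
        ∃ C : ℝ, 0 < C ∧ ∀ r : ℝ, 0 < r → ∃ 𝒰 : Set (Set G),
          (∀ x : G, ∃ A ∈ 𝒰, x ∈ A) ∧
          (∀ A ∈ 𝒰, ∀ x ∈ A, ∀ y ∈ A, (len (x⁻¹ * y) : ℝ) ≤ C * r) ∧
          ∀ x : G, {A ∈ 𝒰 | ∃ y ∈ A, (len (x⁻¹ * y) : ℝ) ≤ r}.encard ≤ 4 := by
  obtain ⟨C, hC, h⟩ := result
  obtain ⟨G, _, -, h1, h2, S, len, -, h3, h4⟩ := h fun _ => PUnit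
  refine ⟨G, inferInstance, h1, h2, S, len, h3, C, hC, fun r hr => ?_⟩
  obtain ⟨U, u1, u2, u3⟩ := h4 r hr
  exact ⟨U, u1, u2, fun x => (u3 x).trans (by norm_num)⟩

end Pool.Agent.Results.MP_aa4716_al.DimTwo
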